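import Mathlib

set_option autoImplicit false

namespace Pool.Agent.Results.MP_a23160_lc.Hamel

theorem wf_countable {J : Type} [LinearOrder J] [WellFoundedLT J] (g : J → ℝ) (hg : StrictMono g) :
    Countable J := by
  rw [← Set.countable_univ_iff]
  refine (countable_image_lt_image_Ioi g).mono fun i _ => ?_
  by_cases h : (Set.Ioi i).Nonempty
  · exact ⟨g (wellFounded_lt.min _ h), hg (wellFounded_lt.min_mem _ h), fun y hy =>
      hg.monotone (not_lt.1 (wellFounded_lt.not_lt_min _ hy))⟩
  · exact ⟨g i + 1, by linarith, fun y hy => absurd ⟨y, hy⟩ h⟩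

variable {ι : Type} [LinearOrder ι] (b : Module.Basis ι ℚ ℝ)

/-- `i` is the top index of `d`, with coefficient `q` -/
def Top (d : ℝ) (i : ι) (q : ℚ) : Prop := q ≠ 0 ∧ b.repr d i = q ∧ ∀ j, i < j → b.repr d j = 0

def Pos (d : ℝ) : Prop := ∃ i q, 0 < q ∧ Top b d i q

theorem top_unique {d : ℝ} {i j : ι} {q r : ℚ} (h : Top b d i q) (h' : Top b d j r) : q = r := by
  rcases lt_trichotomy i j with h1 | rfl | h1
  · exact absurd ((h'.2.1.symm.trans (h.2.2 j h1))) h'.1
  · exact h.2.1.symm.trans h'.2.1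
  · exact absurd ((h.2.1.symm.trans (h'.2.2 i h1))) h.1

theorem pos_iff {d : ℝ} {i : ι} {q : ℚ} (h : Top b d i q) : Pos b d ↔ 0 < q :=
  ⟨fun ⟨_, _, h1, h2⟩ => top_unique b h2 h ▸ h1, fun h1 => ⟨i, q, h1, h⟩⟩

theorem exists_top {d : ℝ} (hd : d ≠ 0) : ∃ i q, Top b d i q := by
  have hne : (b.repr d).support.Nonempty := Finsupp.support_nonempty_iff.2 (by simpa using hd)
  refine ⟨(b.repr d).support.max' hne, _, Finsupp.mem_support_iff.1 (Finset.max'_mem _ hne), rfl,
    fun j hj => ?_⟩
  by_contra h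
  exact absurd (Finset.le_max' _ j (Finsupp.mem_support_iff.2 h)) (not_le.2 hj)

theorem top_sub {x y : ℝ} {i j : ι} {q : ℚ} (hx : Top b x i q) (hy : Top b y j q) (h : i < j) :
    Top b (y - x) j q ∧ Top b (x - y) j (-q) := by
  refine ⟨⟨hy.1, by simp [hy.2.1, hx.2.2 j h], fun k hk => ?_⟩,
    ⟨neg_ne_zero.2 hy.1, by simp [hy.2.1, hx.2.2 j h], fun k hk => ?_⟩⟩ <;>
  simp [hy.2.2 k hk, hx.2.2 k (h.trans hk)]

theorem main [WellFoundedLT ι] (c : Prop) (n : ℕ) : ∀ X : Set ℝ,
    (∀ x ∈ X, (b.repr x).support.card ≤ n) → (∀ x ∈ X, ∀ y ∈ X, x ≠ y → (Pos b |x - y| ↔ c)) →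
    X.Countable := by
  classical
  induction n with
  | zero =>
    intro X h _
    refine (Set.countable_singleton 0).mono fun x hx => ?_
    have := h x hx
    simpa using this
  | succ n ih =>
    intro X h hc
    have h1 : ∀ i q, {x ∈ X | Top b x i q}.Countable := by
      intro i q
      refine Set.countable_of_injective_of_countable_image (f := fun x => x - q • b i)
        (fun x _ y _ h => by simpa using h) (ih _ ?_ ?_)
      · rintro _ ⟨x, ⟨hx, ht⟩, rfl⟩
        have hsub : (b.repr (x - q • b i)).support ⊆ (b.repr x).support.erase i := by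
          intro j hj
          rw [Finsupp.mem_support_iff] at hj
          by_cases hji : j = i
          · subst hji
            exact absurd (by simp [ht.2.1]) hj
          · simpa [hji, Finsupp.single_apply, Ne.symm hji] using hj
        have h2 := Finset.card_le_card hsub
        rw [Finset.card_erase_of_mem (Finsupp.mem_support_iff.2 (ht.2.1 ▸ ht.1))] at h2
        have := h x hx
        show (b.repr (x - q • b i)).support.card ≤ n
        omega
      · rintro _ ⟨x, hx, rfl⟩ _ ⟨y, hy, rfl⟩ hxy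
        rw [sub_sub_sub_cancel_right]
        exact hc x hx.1 y hy.1 fun h => hxy (by rw [h])
    have h2 : ∀ q, {i | ∃ x ∈ X, Top b x i q}.Countable := by
      intro q
      rw [← Set.countable_coe_iff]
      choose g hg1 hg2 using fun i : {i | ∃ x ∈ X, Top b x i q} => i.2
      have key : ∀ i j, i < j → (g i < g j ∧ (0 < q ↔ c)) ∨ (g j < g i ∧ (0 < -q ↔ c)) := by
        intro i j hij
        obtain ⟨t1, t2⟩ := top_sub b (hg2 i) (hg2 j) hij
        have hne : g i ≠ g j := by
          intro h
          rw [h, sub_self] at t1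
          exact t1.1 (by simpa using t1.2.1.symm)
        have h3 := hc _ (hg1 i) _ (hg1 j) hne
        rcases lt_or_gt_of_ne hne with h | h
        · rw [abs_sub_comm, abs_of_pos (sub_pos.2 h), pos_iff b t1] at h3
          exact Or.inl ⟨h, h3⟩
        · rw [abs_of_pos (sub_pos.2 h), pos_iff b t2] at h3
          exact Or.inr ⟨h, h3⟩
      by_cases hq : 0 < q ↔ c
      · refine wf_countable g fun i j hij => ?_
        rcases key i j hij with h | h
        · exact h.1
        · have h0 := (hg2 i).1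
          have := h.2.trans hq.symm
          rcases lt_or_gt_of_ne h0 with h5 | h5
          · exact absurd (this.1 (by linarith)) (by linarith)
          · exact absurd (this.2 h5) (by linarith)
      · refine wf_countable (fun i => - g i) fun i j hij => ?_
        rcases key i j hij with h | h
        · exact absurd h.2 hq
        · exact neg_lt_neg h.1
    refine ((Set.countable_iUnion fun q => (h2 q).biUnion fun i _ => h1 i q).insert 0).mono
      fun x hx => ?_
    by_cases h0 : x = 0
    · exact Or.inl h0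
    · obtain ⟨i, q, ht⟩ := exists_top b h0
      exact Or.inr (Set.mem_iUnion.2 ⟨q, Set.mem_biUnion (show i ∈ _ from ⟨x, hx, ht⟩) ⟨hx, ht⟩⟩)

theorem result : ∃ f : ℝ → Fin 2, ∀ X : Set ℝ,
    (∃ c : Fin 2, ∀ x ∈ X, ∀ y ∈ X, x ≠ y → f |x - y| = c) → X.Countable := by
  classical
  let b := Module.Basis.ofVectorSpace ℚ ℝ
  obtain ⟨inst, hwf⟩ := exists_wellFoundedLT (Module.Basis.ofVectorSpaceIndex ℚ ℝ)
  refine ⟨fun d => if @Pos _ inst b d then 1 else 0, ?_⟩
  rintro X ⟨c, hc⟩
  have : X = ⋃ n : ℕ, {x ∈ X | (b.repr x).support.card ≤ n} := by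
    ext x
    simp only [Set.mem_iUnion, Set.mem_setOf_eq]
    exact ⟨fun h => ⟨_, h, le_rfl⟩, fun ⟨_, h, _⟩ => h⟩
  rw [this]
  refine Set.countable_iUnion fun n => @main _ inst b hwf (c = 1) n _ (fun x hx => hx.2)
    fun x hx y hy hxy => ?_
  rw [← hc x hx.1 y hy.1 hxy]
  simp

end Pool.Agent.Results.MP_a23160_lc.Hamel
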